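import Mathlib
import Pool.Agent.R735.AInf.Lower3

set_option autoImplicit false

namespace Pool.Agent.Results.MP_afe93a_an.SupNormThree

open Pool.Agent.Helper547.Alpha

/-- Paulsen's conjectured value `α(ℓ_∞ⁿ) = √(n/2)` is wrong: `α(ℓ_∞³) ≥ 125/102 > √(3/2)`. -/
theorem result :
    (125 : ℝ) / 102 ≤ alpha (Fin 3 → ℂ) ∧ Real.sqrt (3 / 2) < alpha (Fin 3 → ℂ) ∧
    ¬ ∀ n : ℕ, 2 < n → alpha (Fin n → ℂ) = Real.sqrt (n / 2) := by
  have h1 := Pool.Agent.R735.AInf.alpha_ge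
  have h2 : Real.sqrt (3 / 2) < (125 : ℝ) / 102 := by
    rw [Real.sqrt_lt' (by norm_num)]; norm_num
  refine ⟨h1, h2.trans_le h1, fun h => ?_⟩
  have h3 := h 3 (by norm_num)
  push_cast at h3
  rw [h3] at h1
  linarith

end Pool.Agent.Results.MP_afe93a_an.SupNormThree
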